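import Pool.Agent.Lib.MP_372a40_co.Final

/-!
# Forced unwanted incidences of (n_3) configurations: the constant is `1/9`

`Forced c` (file `Pool/Agent/Lib/MP_372a40_co/Config.lean`): for every `N` there are `n ≥ N` and a connected combinatorial `(n₃)`
configuration `C` with at least one representation in the Euclidean plane such that `u(C) ≥ c n`, where `u(C)` is the least number of
unwanted incidences of a representation. The set of the admissible constants `c ≥ 0` has the greatest element `1/9`.
-/

namespace Pool.Agent.Results.MP_372a40_co.ForcedIncidences

open Pool.Agent.NCfg

/-- The constant `c*` of the problem is `1/9`, and it is attained. -/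
theorem result : IsGreatest {c : ℝ | 0 ≤ c ∧ Forced c} (1 / 9) :=
  Pool.Agent.NCfg.main

end Pool.Agent.Results.MP_372a40_co.ForcedIncidences
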